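import Pool.Agent.H11.KT.Targets

/-! # MP_0b603e_al, modules K_CI, K_PI -/

set_option autoImplicit false

open scoped commutatorElement

namespace Pool.Agent.H27.KT

open Pool.Agent.H11.EL Pool.Agent.H11.KT

theorem pf_CI : K_CI := by
  intro G _ M Z hM hZ t c
  constructor
  · unfold cz
    refine Nat.card_congr ⟨fun u => ⟨⟨c⁻¹ * (u.1 : G) * c⁻¹⁻¹, hM.conj_mem _ u.1.2 _⟩, ?_⟩,
      fun u => ⟨⟨c * (u.1 : G) * c⁻¹, hM.conj_mem _ u.1.2 _⟩, ?_⟩, ?_, ?_⟩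
    · change ⁅c⁻¹ * (u.1 : G) * c⁻¹⁻¹, t⁆ ∈ Z
      have h := hZ.conj_mem _ u.2 c⁻¹
      have e : c⁻¹ * ⁅(u.1 : G), c * t * c⁻¹⁆ * c⁻¹⁻¹ = ⁅c⁻¹ * (u.1 : G) * c⁻¹⁻¹, t⁆ := by
        simp only [commutatorElement_def]; group
      rwa [e] at h
    · change ⁅c * (u.1 : G) * c⁻¹, c * t * c⁻¹⁆ ∈ Z
      have h := hZ.conj_mem _ u.2 c
      have e : c * ⁅(u.1 : G), t⁆ * c⁻¹ = ⁅c * (u.1 : G) * c⁻¹, c * t * c⁻¹⁆ := by
        simp only [commutatorElement_def]; group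
      rwa [e] at h
    · intro u
      apply Subtype.ext
      apply Subtype.ext
      change c * (c⁻¹ * (u.1 : G) * c⁻¹⁻¹) * c⁻¹ = u.1
      group
    · intro u
      apply Subtype.ext
      apply Subtype.ext
      change c⁻¹ * (c * (u.1 : G) * c⁻¹) * c⁻¹⁻¹ = u.1
      group
  · unfold cz
    refine Nat.card_congr (Equiv.subtypeEquivRight fun u => ?_)
    have e1 : ⁅(u : G), t⁻¹⁆ = t⁻¹ * ⁅(u : G), t⁆⁻¹ * t⁻¹⁻¹ := by
      simp only [commutatorElement_def]; group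
    rw [e1]
    constructor
    · intro h
      have h2 := Z.inv_mem (hZ.conj_mem _ h t)
      have e2 : (t * (t⁻¹ * ⁅(u : G), t⁆⁻¹ * t⁻¹⁻¹) * t⁻¹)⁻¹ = ⁅(u : G), t⁆ := by group
      rwa [e2] at h2
    · intro h
      exact hZ.conj_mem _ (Z.inv_mem h) _

theorem pf_PI : K_PI := by
  classical
  intro G _ _ M Z n t
  have h1 : Nat.card {u : Fin n → M // ∀ i : Fin n, ⁅((u i : M) : G), t i⁆ ∈ Z} =
      Nat.card (∀ i : Fin n, {u : M // ⁅(u : G), t i⁆ ∈ Z}) :=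
    Nat.card_congr (Equiv.subtypePiEquivPi (p := fun (i : Fin n) (u : M) => ⁅(u : G), t i⁆ ∈ Z))
  rw [h1, Nat.card_pi, Finset.prod_range]
  rfl

end Pool.Agent.H27.KT
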