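import Pool.Agent.H11.KT.Targets

/-!
# MP_0b603e_al, module K_LN: the values of `Ps` on an abelian normal subgroup
-/

set_option autoImplicit false

open scoped commutatorElement

namespace Pool.Agent.H27.KT

open Pool.Agent.H11.EL Pool.Agent.H11.KT

theorem ln_comm_mul {G : Type} [Group G] {A : Subgroup G} (hA : A.Normal)
    (hc : ∀ x ∈ A, ∀ y ∈ A, x * y = y * x) (t : G) {x x' : G} (hx : x ∈ A) (hx' : x' ∈ A) :
    ⁅x * x', t⁆ = ⁅x, t⁆ * ⁅x', t⁆ := by
  have h1 : ⁅x', t⁆ ∈ A := comm_mem_left hA hx' t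
  have h2 : t * x⁻¹ * t⁻¹ ∈ A := hA.conj_mem _ (A.inv_mem hx) t
  have h3 := hc _ h1 _ h2
  calc ⁅x * x', t⁆ = x * (⁅x', t⁆ * (t * x⁻¹ * t⁻¹)) := by
        simp only [commutatorElement_def]; group
    _ = x * ((t * x⁻¹ * t⁻¹) * ⁅x', t⁆) := by rw [h3]
    _ = ⁅x, t⁆ * ⁅x', t⁆ := by simp only [commutatorElement_def]; group

theorem ln_Ps_mul {G : Type} [Group G] {A : Subgroup G} (hA : A.Normal)
    (hc : ∀ x ∈ A, ∀ y ∈ A, x * y = y * x) (n : ℕ) (t : ℕ → G) {x x' : ℕ → G}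
    (hx : ∀ i, x i ∈ A) (hx' : ∀ i, x' i ∈ A) :
    Ps n t (fun i => x i * x' i) = Ps n t x * Ps n t x' := by
  induction n with
  | zero => simp
  | succ n ih =>
    rw [Ps_succ, Ps_succ, Ps_succ, ih, ln_comm_mul hA hc _ (hx n) (hx' n)]
    have h1 : Ps n t x' ∈ A := Ps_mem hA (fun i _ => hx' i)
    have h2 : Px n t * ⁅x n, t n⁆ * (Px n t)⁻¹ ∈ A :=
      hA.conj_mem _ (comm_mem_left hA (hx n) _) _
    have h3 := hc _ h1 _ h2
    calc Ps n t x * Ps n t x' * (Px n t * (⁅x n, t n⁆ * ⁅x' n, t n⁆) * (Px n t)⁻¹)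
        = Ps n t x * (Ps n t x' * (Px n t * ⁅x n, t n⁆ * (Px n t)⁻¹)) *
            (Px n t * ⁅x' n, t n⁆ * (Px n t)⁻¹) := by group
      _ = _ := by rw [h3]; group

theorem ln_Ps_one {G : Type} [Group G] (n : ℕ) (t x : ℕ → G)
    (hx : ∀ j < n, x j = 1) : Ps n t x = 1 := by
  induction n with
  | zero => simp
  | succ n ih =>
    rw [Ps_succ, ih (fun j hj => hx j (by omega)), hx n (by omega), commutatorElement_one_left]
    simp

theorem ln_Ps_single {G : Type} [Group G] (n : ℕ) (t x : ℕ → G) (i : ℕ) (hi : i < n)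
    (hx : ∀ j, j ≠ i → x j = 1) :
    Ps n t x = Px i t * ⁅x i, t i⁆ * (Px i t)⁻¹ := by
  induction n with
  | zero => omega
  | succ n ih =>
    rw [Ps_succ]
    rcases Nat.lt_succ_iff_lt_or_eq.1 hi with h | h
    · rw [ih h, hx n (by omega), commutatorElement_one_left]
      simp
    · subst h
      rw [ln_Ps_one i t x (fun j hj => hx j (by omega)), one_mul]

/-- the subgroup of the values of `Ps` -/
def lnI {G : Type} [Group G] (A : Subgroup G) (hA : A.Normal)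
    (hc : ∀ x ∈ A, ∀ y ∈ A, x * y = y * x) (n : ℕ) (t : ℕ → G) : Subgroup G where
  carrier := {g | ∃ x : ℕ → G, (∀ i, x i ∈ A) ∧ Ps n t x = g}
  one_mem' := ⟨fun _ => 1, fun _ => A.one_mem, ln_Ps_one n t _ (fun _ _ => rfl)⟩
  mul_mem' := by
    rintro g h ⟨x, hx, rfl⟩ ⟨x', hx', rfl⟩
    exact ⟨fun i => x i * x' i, fun i => A.mul_mem (hx i) (hx' i), ln_Ps_mul hA hc n t hx hx'⟩
  inv_mem' := by
    rintro g ⟨x, hx, rfl⟩
    refine ⟨fun i => (x i)⁻¹, fun i => A.inv_mem (hx i), ?_⟩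
    have h := ln_Ps_mul hA hc n t hx (fun i => A.inv_mem (hx i))
    rw [ln_Ps_one n t (fun i => x i * (x i)⁻¹) (fun j _ => mul_inv_cancel _)] at h
    exact eq_inv_of_mul_eq_one_right h.symm

/-- the elements acting trivially modulo `I` -/
def lnS {G : Type} [Group G] (A : Subgroup G) (hA : A.Normal) (I : Subgroup G) :
    Subgroup G where
  carrier := {g | ∀ t ∈ A, t * (g * t * g⁻¹)⁻¹ ∈ I}
  one_mem' := by
    intro t _
    have h : t * (1 * t * 1⁻¹)⁻¹ = 1 := by group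
    rw [h]
    exact I.one_mem
  mul_mem' := by
    intro g h hg hh t ht
    have h1 := I.mul_mem (hh t ht) (hg _ (hA.conj_mem t ht h))
    have h2 : t * (h * t * h⁻¹)⁻¹ * (h * t * h⁻¹ * (g * (h * t * h⁻¹) * g⁻¹)⁻¹) =
        t * (g * h * t * (g * h)⁻¹)⁻¹ := by group
    rw [h2] at h1
    exact h1
  inv_mem' := by
    intro g hg t ht
    have h0 : g⁻¹ * t * g⁻¹⁻¹ ∈ A := hA.conj_mem t ht g⁻¹
    have h1 := I.inv_mem (hg _ h0)
    have h2 : (g⁻¹ * t * g⁻¹⁻¹ * (g * (g⁻¹ * t * g⁻¹⁻¹) * g⁻¹)⁻¹)⁻¹ =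
        t * (g⁻¹ * t * g⁻¹⁻¹)⁻¹ := by group
    rw [h2] at h1
    exact h1

theorem ln_Px_mem {G : Type} [Group G] {S : Subgroup G} (n : ℕ) (t : ℕ → G)
    (ht : ∀ j < n, t j ∈ S) : Px n t ∈ S := by
  induction n with
  | zero => exact S.one_mem
  | succ n ih =>
    rw [Px_succ]
    exact S.mul_mem (ih (fun j hj => ht j (by omega))) (ht n (by omega))

theorem pf_LN : K_LN := by
  intro G _ A C hA hc hcC n t hcl κ hκ
  set I := lnI A hA hc n t with hI
  set S := lnS A hA I with hS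
  have hu : ∀ i < n, Px i t * t i * (Px i t)⁻¹ ∈ S := by
    intro i hi a ha
    have hx : (Px i t)⁻¹ * a * (Px i t)⁻¹⁻¹ ∈ A := hA.conj_mem a ha _
    refine ⟨fun j => if j = i then (Px i t)⁻¹ * a * (Px i t)⁻¹⁻¹ else 1, ?_, ?_⟩
    · intro j
      change (if j = i then (Px i t)⁻¹ * a * (Px i t)⁻¹⁻¹ else 1) ∈ A
      split_ifs
      · exact hx
      · exact A.one_mem
    · rw [ln_Ps_single n t _ i hi (fun j hj => if_neg hj)]
      simp only [if_true, commutatorElement_def]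
      group
  have hmem : ∀ i ≤ n, ∀ j < i, t j ∈ S := by
    intro i
    induction i with
    | zero => intro _ j hj; omega
    | succ i ih =>
      intro hi j hj
      have ih' := ih (by omega)
      rcases Nat.lt_succ_iff_lt_or_eq.1 hj with h | h
      · exact ih' j h
      · subst h
        have hcp : Px j t ∈ S := ln_Px_mem j t (fun k hk => ih' k hk)
        have h1 := S.mul_mem (S.mul_mem (S.inv_mem hcp) (hu j (by omega))) hcp
        have e1 : (Px j t)⁻¹ * (Px j t * t j * (Px j t)⁻¹) * Px j t = t j := by group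
        rw [e1] at h1
        exact h1
  have htop : (⊤ : Subgroup G) ≤ S := by
    rw [← hcl, Subgroup.closure_le]
    rintro g (⟨i, hi, h⟩ | hg)
    · rw [h]; exact hmem n le_rfl i hi
    · intro a ha
      have h1 := hcC a ha g hg
      have h2 : a * (g * a * g⁻¹)⁻¹ = 1 := by
        rw [← h1]; group
      rw [h2]
      exact I.one_mem
  have hle : ⁅A, (⊤ : Subgroup G)⁆ ≤ I := by
    rw [Subgroup.commutator_le]
    intro a ha g hg
    have h1 := htop hg a ha
    have h2 : a * (g * a * g⁻¹)⁻¹ = ⁅a, g⁆ := by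
      rw [commutatorElement_def]; group
    rw [h2] at h1
    exact h1
  exact hle hκ

end Pool.Agent.H27.KT
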