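import Pool.Agent.H11.KT.Targets

/-! # MP_0b603e_al, module K_NG: generators of nilpotent groups -/

set_option autoImplicit false

open scoped commutatorElement

namespace Pool.Agent.H27.KT

open Pool.Agent.H11.EL Pool.Agent.H11.KT

/-- one step -/
theorem ng_step {G : Type} [Group G] (H L : Subgroup G) (h : H ⊔ L = ⊤)
    (hc : H ⊔ commutator G = ⊤) : H ⊔ ⁅L, (⊤ : Subgroup G)⁆ = ⊤ := by
  set K : Subgroup G := H ⊔ ⁅L, (⊤ : Subgroup G)⁆ with hK
  have hHK : H ≤ K := le_sup_left
  have hLK : ⁅L, (⊤ : Subgroup G)⁆ ≤ K := le_sup_right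
  -- `K` is normal
  have hN : K.Normal := by
    have h1 : (⊤ : Subgroup G) ≤ Subgroup.normalizer (K : Set G) := by
      rw [← h, sup_le_iff]
      constructor
      · exact hHK.trans Subgroup.le_normalizer
      · intro z hz
        rw [Subgroup.mem_normalizer_iff]
        intro g
        have h2 : ⁅z, g⁆ ∈ K := hLK (Subgroup.commutator_mem_commutator hz (Subgroup.mem_top g))
        have e : z * g * z⁻¹ = ⁅z, g⁆ * g := by
          simp only [commutatorElement_def]; group
        constructor
        · intro hg
          rw [e]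
          exact K.mul_mem h2 hg
        · intro hg
          rw [e] at hg
          have := K.mul_mem (K.inv_mem h2) hg
          rwa [inv_mul_cancel_left] at this
    exact Subgroup.normalizer_eq_top_iff.mp (top_le_iff.mp h1)
  -- the centre modulo `K`
  have hcen : (⊤ : Subgroup G) ≤ (Subgroup.center (G ⧸ K)).comap (QuotientGroup.mk' K) := by
    rw [← h, sup_le_iff]
    constructor
    · intro x hx
      have h1 : QuotientGroup.mk' K x = 1 := (QuotientGroup.eq_one_iff x).mpr (hHK hx)
      rw [Subgroup.mem_comap, h1]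
      exact Subgroup.one_mem _
    · intro z hz
      rw [Subgroup.mem_comap, Subgroup.mem_center_iff]
      intro g'
      obtain ⟨g, rfl⟩ := QuotientGroup.mk'_surjective K g'
      rw [← map_mul, ← map_mul]
      refine QuotientGroup.eq.mpr ?_
      have h2 : ⁅z⁻¹, g⁻¹⁆ ∈ K := hLK (Subgroup.commutator_mem_commutator (L.inv_mem hz)
        (Subgroup.mem_top _))
      have e : (g * z)⁻¹ * (z * g) = ⁅z⁻¹, g⁻¹⁆ := by
        simp only [commutatorElement_def]; group
      rw [e]
      exact h2
  have hcom : commutator G ≤ K := by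
    rw [commutator_def, Subgroup.commutator_le]
    intro a _ b _
    have h1 := hcen (Subgroup.mem_top a)
    rw [Subgroup.mem_comap, Subgroup.mem_center_iff] at h1
    have h2 := h1 (QuotientGroup.mk' K b)
    rw [← map_mul, ← map_mul] at h2
    have h3 : (b * a)⁻¹ * (a * b) ∈ K := QuotientGroup.eq.mp h2
    have h4 := hN.conj_mem _ h3 (b * a)
    have e : (b * a) * ((b * a)⁻¹ * (a * b)) * (b * a)⁻¹ = ⁅a, b⁆ := by
      simp only [commutatorElement_def]; group
    rwa [e] at h4
  rw [← top_le_iff, ← hc]
  exact sup_le hHK hcom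

theorem pf_NG : K_NG := by
  intro G _ hnil S hS
  have hc : Subgroup.closure S ⊔ commutator G = ⊤ := by
    rw [Subgroup.closure_union, Subgroup.closure_eq] at hS
    exact hS
  have key : ∀ k : ℕ, Subgroup.closure S ⊔ (⊤ : Subgroup G).lowerCentralSeries k = ⊤ := by
    intro k
    induction k with
    | zero => rw [Subgroup.lowerCentralSeries_zero]; exact sup_top_eq _
    | succ k ih =>
      rw [Subgroup.lowerCentralSeries_succ]
      exact ng_step _ _ ih hc
  obtain ⟨n, hn⟩ := (Subgroup.nilpotent_iff_lowerCentralSeries (G := G)).mp hnil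
  have h1 := key n
  rw [hn, sup_bot_eq] at h1
  exact h1

end Pool.Agent.H27.KT
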